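import Pool.Agent.Helper89.A8.Stmts
import Pool.Agent.Helper89.A8.GTools

/-!
# Blocks G04: quotient modules
-/

set_option autoImplicit false

namespace Pool.Agent.A8

open Matrix
open scoped commutatorElement

/-! ### facts on elements of configurations -/

section G04a
variable {G : Type} [Group G] {π : G →* Gam}

theorem G04_pow_two (h : Cfg π) {x : G} (hx : x ∈ π.ker) : ∃ k : ℕ, x ^ 2 ^ k = 1 := by
  obtain ⟨k, hk⟩ := (isPGroup_iff_pow_pow_eq_one.1 h.ker2) ⟨x, hx⟩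
  exact ⟨k, by simpa [Subtype.ext_iff] using hk⟩

/-- an element of 2-power order: the order, and the powers -/
theorem G04_small {x : G} (hx : ∃ k : ℕ, x ^ 2 ^ k = 1) (j : ℕ)
    (hj : ∀ i : ℕ, orderOf (x ^ i) ≠ 2 ^ (j + 1)) : x ^ 2 ^ j = 1 := by
  obtain ⟨k, hk⟩ := hx
  obtain ⟨m, hm, hm'⟩ := (Nat.dvd_prime_pow Nat.prime_two).1 (orderOf_dvd_of_pow_eq_one hk)
  rcases Nat.lt_or_ge j m with hlt | hge
  · exfalso
    apply hj (2 ^ (m - (j + 1)))
    have hdvd : 2 ^ (m - (j + 1)) ∣ orderOf x := by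
      rw [hm']
      exact pow_dvd_pow 2 (Nat.sub_le _ _)
    rw [orderOf_pow_of_dvd (by positivity) hdvd, hm', Nat.pow_div (Nat.sub_le _ _) (by norm_num)]
    congr 1
    omega
  · rw [← orderOf_dvd_iff_pow_eq_one, hm']
    exact pow_dvd_pow 2 hge

/-- elements of 2-power order have order dividing 8 -/
theorem G04_eight (h : Cfg π) {u : G} (hu : ∃ k : ℕ, u ^ 2 ^ k = 1) : u ^ 8 = 1 := by
  have := G04_small hu 3 (fun i hi => h.n16 _ (by rw [hi]; norm_num))
  simpa using this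

theorem G04_eight' (h : Cfg π) {u : G} (hu : π u ^ 4 = 1) : u ^ 8 = 1 := by
  apply G04_eight h
  have h4 : u ^ 4 ∈ π.ker := by rw [MonoidHom.mem_ker, map_pow, hu]
  obtain ⟨k, hk⟩ := G04_pow_two h h4
  refine ⟨k + 2, ?_⟩
  rw [← pow_mul] at hk
  rw [pow_add, mul_comm]
  exact hk

/-- the elements of `K` commuting with an element of odd order -/
theorem G04_cent (h : Cfg π) {z x : G} (hx : x ∈ π.ker) (hc : z * x = x * z) (m j : ℕ)
    (hz : orderOf z = m) (hm : Odd m) (hno : ∀ g : G, orderOf g ≠ m * 2 ^ (j + 1)) :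
    x ^ 2 ^ j = 1 := by
  apply G04_small (G04_pow_two h hx) j
  intro i hi
  apply hno (z * x ^ i)
  have hcop : (orderOf z).Coprime (orderOf (x ^ i)) := by
    rw [hz, hi]
    exact (Nat.coprime_two_right.2 hm).pow_right _
  rw [Commute.orderOf_mul_eq_mul_orderOf_of_coprime (Commute.pow_right hc i) hcop, hz, hi]

theorem G04_cent15 (h : Cfg π) {z x : G} (hx : x ∈ π.ker) (hc : z * x = x * z)
    (hz : orderOf z = 15) : x = 1 := by
  have := G04_cent h hx hc 15 0 hz (by decide) (fun g hg => h.n30 g (by rw [hg]; norm_num))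
  simpa using this

theorem G04_cent57 (h : Cfg π) {z x : G} (hx : x ∈ π.ker) (hc : z * x = x * z)
    (hz : orderOf z = 5 ∨ orderOf z = 7) : x * x = 1 := by
  have : x ^ 2 ^ 1 = 1 := by
    rcases hz with hz | hz
    · exact G04_cent h hx hc 5 1 hz (by decide) (fun g hg => h.n20 g (by rw [hg]; norm_num))
    · exact G04_cent h hx hc 7 1 hz (by decide) (fun g hg => h.n28 g (by rw [hg]; norm_num))
  simpa [pow_two] using this

/-- two elements of `K` commuting with the same element of order 5 or 7 commute -/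
theorem G04_comm57 (h : Cfg π) {z x y : G} (hx : x ∈ π.ker) (hy : y ∈ π.ker)
    (hcx : z * x = x * z) (hcy : z * y = y * z)
    (hz : orderOf z = 5 ∨ orderOf z = 7) : x * y = y * x := by
  have h1 := G04_cent57 h hx hcx hz
  have h2 := G04_cent57 h hy hcy hz
  have h3 := G04_cent57 h (mul_mem hx hy) (show z * (x * y) = (x * y) * z by
    rw [← mul_assoc, hcx, mul_assoc, hcy, mul_assoc]) hz
  have e1 : x⁻¹ = x := by rw [inv_eq_iff_mul_eq_one, h1]
  have e2 : y⁻¹ = y := by rw [inv_eq_iff_mul_eq_one, h2]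
  have e3 : (x * y)⁻¹ = x * y := by rw [inv_eq_iff_mul_eq_one, h3]
  rw [← e3, _root_.mul_inv_rev, e1, e2]

/-- lifts with the right order -/
theorem G04_lift (h2 : S_LIFT) [Finite G] (h : Cfg π) (g : Gam) (n : ℕ) (hn : Odd n)
    (hg : orderOf g = n) : ∃ z : G, π z = g ∧ orderOf z = n := by
  obtain ⟨z, hz, hzn⟩ := h2 G π h g n hn (by rw [← hg]; exact pow_orderOf_eq_one g)
  refine ⟨z, hz, Nat.dvd_antisymm (orderOf_dvd_of_pow_eq_one hzn) ?_⟩
  rw [← hg, ← hz]
  exact orderOf_map_dvd π z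

/-- coprime action of a cyclic group -/
theorem G04_cop (h1 : S_COP) [Finite G] (N : Subgroup G) (hN : N.Normal) (hN2 : IsPGroup 2 N)
    {z x : G} (hz : Odd (orderOf z)) (hx : x⁻¹ * (z * x * z⁻¹) ∈ N) :
    ∃ n ∈ N, z * (x * n) = x * n * z := by
  have hnat : ∀ h ∈ Subgroup.zpowers z, x⁻¹ * (h * x * h⁻¹) ∈ N := by
    rintro _ ⟨i, rfl⟩
    have e : ∀ h : G, x⁻¹ * (h * x * h⁻¹) ∈ N ↔ (h : G ⧸ N) * x = x * h := by
      intro h
      rw [← QuotientGroup.eq_one_iff, QuotientGroup.mk_mul, QuotientGroup.mk_mul,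
        QuotientGroup.mk_mul, QuotientGroup.mk_inv, QuotientGroup.mk_inv, inv_mul_eq_one,
        eq_mul_inv_iff_mul_eq, eq_comm]
    change x⁻¹ * (z ^ i * x * (z ^ i)⁻¹) ∈ N
    rw [e] at hx ⊢
    rw [QuotientGroup.mk_zpow]
    exact Commute.zpow_left hx i
  obtain ⟨n, hn, hn'⟩ := h1 G (Subgroup.zpowers z) N
    (Group.isSolvable_of_comm fun a b => by
      obtain ⟨a, i, rfl⟩ := a
      obtain ⟨b, j, rfl⟩ := b
      apply Subtype.ext
      change z ^ i * z ^ j = z ^ j * z ^ i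
      rw [← _root_.zpow_add, ← _root_.zpow_add, add_comm])
    (by rwa [Nat.card_zpowers]) hN2 (fun h _ n hn => hN.conj_mem n hn h) x hnat
  refine ⟨n, hn, ?_⟩
  have := hn' z (Subgroup.mem_zpowers z)
  exact mul_inv_eq_iff_eq_mul.1 this

end G04a

/-! ### making modules -/

/-- an elementary abelian 2-group with an action of `Gam` is an `RG`-module -/
theorem G04_mod {M : Type} [AddCommGroup M] (h2 : ∀ m : M, m + m = 0)
    (ρ : Gam →* AddMonoid.End M) :
    ∃ inst : Module RG M, ∀ g m, @act M _ inst g m = ρ g m := by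
  let _ : Module (ZMod 2) M := AddCommGroup.zmodModule (n := 2) (fun m => by
    rw [two_nsmul, h2])
  let rep : Gam →* Module.End (ZMod 2) M :=
    { toFun := fun g => endOf (ρ g) (map_add (ρ g))
      map_one' := by
        ext v
        simp
      map_mul' := by
        intro g h
        ext v
        simp }
  let inst : Module RG M :=
    Module.compHom M (MonoidAlgebra.lift (ZMod 2) (Module.End (ZMod 2) M) Gam rep).toRingHom
  refine ⟨inst, fun g m => ?_⟩
  change (MonoidAlgebra.lift (ZMod 2) (Module.End (ZMod 2) M) Gam rep)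
    (MonoidAlgebra.of (ZMod 2) Gam g) m = _
  rw [MonoidAlgebra.lift_of]
  rfl

/-- the additive group `X / Y` and its `Gam`-action -/
theorem G04_quo {G : Type} [Group G] [Finite G] {π : G →* Gam} (hs : Function.Surjective π)
    (X Y : Subgroup G) (hX : X.Normal) (hY : Y.Normal)
    (hXX : ∀ x ∈ X, ∀ y ∈ X, ⁅x, y⁆ ∈ Y) (hXK : ∀ k ∈ π.ker, ∀ x ∈ X, ⁅k, x⁆ ∈ Y)
    (hsq : ∀ x ∈ X, x * x ∈ Y) :
    ∃ (M : Type) (_ : AddCommGroup M) (_ : Finite M) (ρ : Gam →* AddMonoid.End M) (φ : G → M),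
      (∀ m : M, m + m = 0) ∧ (∀ x ∈ X, ∀ y ∈ X, φ (x * y) = φ x + φ y) ∧
      (∀ g : G, ∀ x ∈ X, φ (g * x * g⁻¹) = ρ (π g) (φ x)) ∧
      (∀ m : M, ∃ x ∈ X, φ x = m) ∧ (∀ x ∈ X, φ x = 0 ↔ x ∈ Y) := by
  classical
  let Q := ↥X ⧸ Y.subgroupOf X
  have hcm : ∀ a b : Q, a * b = b * a := by
    intro a b
    obtain ⟨x, rfl⟩ := QuotientGroup.mk_surjective a
    obtain ⟨y, rfl⟩ := QuotientGroup.mk_surjective b
    rw [← QuotientGroup.mk_mul, ← QuotientGroup.mk_mul, eq_comm, QuotientGroup.eq,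
      Subgroup.mem_subgroupOf]
    have h := hXX x⁻¹ (X.inv_mem x.2) y⁻¹ (X.inv_mem y.2)
    rw [commutatorElement_def] at h
    simpa [mul_assoc] using h
  let _ : CommGroup Q := { (inferInstance : Group Q) with mul_comm := hcm }
  let cj : G → (Q →* Q) := fun g =>
    QuotientGroup.map (Y.subgroupOf X) (Y.subgroupOf X) (MulAut.conjNormal g : X ≃* X).toMonoidHom
      (by
        rintro ⟨y, hyX⟩ hy
        rw [Subgroup.mem_subgroupOf] at hy
        rw [Subgroup.mem_comap, Subgroup.mem_subgroupOf]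
        exact hY.conj_mem y hy g)
  have hcj : ∀ (g : G) (x : X), cj g (x : Q) = ((MulAut.conjNormal g x : X) : Q) := fun g x => rfl
  have hcj1 : ∀ g g' : G, π g = π g' → cj g = cj g' := by
    intro g g' h
    ext x
    obtain ⟨x, hx⟩ := x
    change cj g ((⟨x, hx⟩ : X) : Q) = cj g' ((⟨x, hx⟩ : X) : Q)
    rw [hcj, hcj, QuotientGroup.eq, Subgroup.mem_subgroupOf]
    have hk : g'⁻¹ * g ∈ π.ker := by
      rw [MonoidHom.mem_ker, map_mul, map_inv, h, inv_mul_cancel]
    have h1 := hXK _ hk x⁻¹ (X.inv_mem hx)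
    have h2 := hY.conj_mem _ h1 g'
    rw [commutatorElement_def] at h2
    have e : ((((MulAut.conjNormal g ⟨x, hx⟩ : X))⁻¹ * (MulAut.conjNormal g' ⟨x, hx⟩ : X) : X) : G)
        = g' * (g'⁻¹ * g * x⁻¹ * (g'⁻¹ * g)⁻¹ * x⁻¹⁻¹) * g'⁻¹ := by
      rw [Subgroup.coe_mul, Subgroup.coe_inv, MulAut.conjNormal_apply, MulAut.conjNormal_apply]
      group
    rw [e]
    exact h2
  have hcjm : ∀ g h : G, cj (g * h) = (cj g).comp (cj h) := by
    intro g h
    ext x
    change cj (g * h) (x : Q) = cj g (cj h (x : Q))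
    rw [hcj, hcj, hcj, map_mul]
    rfl
  have hcj0 : cj 1 = MonoidHom.id Q := by
    ext x
    change cj 1 (x : Q) = (x : Q)
    rw [hcj, map_one]
    rfl
  let ρ : Gam →* AddMonoid.End (Additive Q) :=
    { toFun := fun γ => MonoidHom.toAdditive (cj (Function.surjInv hs γ))
      map_one' := by
        rw [hcj1 (Function.surjInv hs 1) 1 (by rw [Function.surjInv_eq hs, map_one]), hcj0]
        rfl
      map_mul' := by
        intro γ δ
        rw [hcj1 (Function.surjInv hs (γ * δ)) (Function.surjInv hs γ * Function.surjInv hs δ)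
          (by rw [Function.surjInv_eq hs, map_mul, Function.surjInv_eq hs,
            Function.surjInv_eq hs]), hcjm]
        rfl }
  let φ : G → Additive Q := fun x => if h : x ∈ X then Additive.ofMul ((⟨x, h⟩ : X) : Q) else 0
  have hφ : ∀ x (h : x ∈ X), φ x = Additive.ofMul ((⟨x, h⟩ : X) : Q) := fun x h => dif_pos h
  refine ⟨Additive Q, inferInstance, inferInstance, ρ, φ, ?_, ?_, ?_, ?_, ?_⟩
  · intro m
    obtain ⟨q, rfl⟩ := Additive.ofMul.surjective m
    obtain ⟨x, rfl⟩ := QuotientGroup.mk_surjective q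
    rw [← ofMul_mul, ← QuotientGroup.mk_mul, ofMul_eq_zero, QuotientGroup.eq_one_iff,
      Subgroup.mem_subgroupOf]
    exact hsq x x.2
  · intro x hx y hy
    rw [hφ x hx, hφ y hy, hφ (x * y) (X.mul_mem hx hy), ← ofMul_mul, ← QuotientGroup.mk_mul]
    rfl
  · intro g x hx
    rw [hφ x hx, hφ _ (hX.conj_mem x hx g)]
    change Additive.ofMul _ = Additive.ofMul (cj (Function.surjInv hs (π g)) ((⟨x, hx⟩ : X) : Q))
    rw [hcj1 _ g (Function.surjInv_eq hs (π g)), hcj]
    rfl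
  · intro m
    obtain ⟨q, rfl⟩ := Additive.ofMul.surjective m
    obtain ⟨x, rfl⟩ := QuotientGroup.mk_surjective q
    exact ⟨x, x.2, hφ x x.2⟩
  · intro x hx
    rw [hφ x hx, ofMul_eq_zero, QuotientGroup.eq_one_iff, Subgroup.mem_subgroupOf]

theorem bQM (h1 : S_COP) (h2 : S_LIFT) : S_QM := by
  intro G _ _ π hπ X Y hX hY hYX hXK hsq hcomm
  have hXK' : ∀ k ∈ π.ker, ∀ x ∈ X, ⁅k, x⁆ ∈ Y := by
    intro k hk x hx
    have := hcomm (Subgroup.commutator_mem_commutator hx hk)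
    rw [← commutatorElement_inv]
    exact Y.inv_mem this
  obtain ⟨M, _, _, ρ, φ, hM2, hmul, hconj, hsurj, hker⟩ := G04_quo hπ.surj X Y hX hY
    (fun x hx y hy => hXK' x (hXK hx) y hy) hXK' hsq
  obtain ⟨inst, hact⟩ := G04_mod hM2 ρ
  have hsec : Sec π X Y φ :=
    { mul := hmul
      conj := fun g x hx => by rw [hact, hconj g x hx]
      surj := hsurj
      ker := hker }
  refine ⟨M, inferInstance, inst, inferInstance, φ, hsec, ?_⟩
  intro g hg m hm
  obtain ⟨x, hx, rfl⟩ := hsurj m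
  obtain ⟨z, hz, hzo⟩ := G04_lift h2 hπ g 15 (by decide) hg
  have hx' : x⁻¹ * (z * x * z⁻¹) ∈ Y := by
    rw [← hker _ (X.mul_mem (X.inv_mem hx) (hX.conj_mem x hx z)),
      hmul _ (X.inv_mem hx) _ (hX.conj_mem x hx z), hsec.toHomOn.map_inv hx, hsec.conj z x hx, hz,
      hm, hM2]
  obtain ⟨n, hn, hn'⟩ := G04_cop h1 Y hY (hπ.ker2.to_le (hYX.trans hXK)) (z := z) (x := x)
    (by rw [hzo]; decide) hx'
  have h1 : x * n = 1 := G04_cent15 hπ (hXK (X.mul_mem hx (hYX hn))) hn' hzo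
  rw [hker x hx, eq_inv_of_mul_eq_one_left h1]
  exact Y.inv_mem hn

/-! ### SIMQ -/

/-- a 2-group acts nilpotently -/
theorem G04_nil {G : Type} [Group G] [Finite G] (K X Y : Subgroup G) (hK : IsPGroup 2 K)
    (hY : Y.Normal) (hXK : X ≤ K) (h : X ≤ ⁅X, K⁆ ⊔ Y) : X ≤ Y := by
  have : Fact (Nat.Prime 2) := ⟨Nat.prime_two⟩
  obtain ⟨n, hn⟩ := (Subgroup.isNilpotent_iff_lowerCentralSeries K).1 hK.isNilpotent
  have key : ∀ n, X ≤ K.lowerCentralSeries n ⊔ Y := by
    intro n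
    induction n with
    | zero => exact hXK.trans le_sup_left
    | succ n ih =>
      refine h.trans (sup_le ?_ le_sup_right)
      rw [Subgroup.commutator_le]
      intro g hg k hk
      obtain ⟨a, ha, b, hb, rfl⟩ := Subgroup.mem_sup_of_normal_right.1 (ih hg)
      have e : ⁅a * b, k⁆ = (a * (b * (k * b⁻¹ * k⁻¹)) * a⁻¹) * ⁅a, k⁆ := by
        simp only [commutatorElement_def]
        group
      rw [e]
      refine mul_mem ?_ ?_
      · exact (le_sup_right : Y ≤ _) (hY.conj_mem _ (mul_mem hb (hY.conj_mem _ (Y.inv_mem hb) k)) a)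
      · apply (le_sup_left : K.lowerCentralSeries (n + 1) ≤ _)
        rw [Subgroup.lowerCentralSeries_succ]
        exact Subgroup.commutator_mem_commutator ha hk
  have := key n
  rwa [hn, bot_sup_eq] at this

/-- the squares of a 2-group generate a proper subgroup (modulo a normal subgroup with abelian
quotient) -/
theorem G04_sq {G : Type} [Group G] [Finite G] (X Y : Subgroup G) (hX2 : IsPGroup 2 X)
    (hY : Y.Normal) (h : ∀ x ∈ X, ∃ w ∈ X, (x : G ⧸ Y) = w * w) : X ≤ Y := by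
  have key : ∀ n : ℕ, ∀ x ∈ X, ∃ w ∈ X, (x : G ⧸ Y) = (w : G ⧸ Y) ^ 2 ^ n := by
    intro n
    induction n with
    | zero => exact fun x hx => ⟨x, hx, by simp⟩
    | succ n ih =>
      intro x hx
      obtain ⟨w, hw, e⟩ := ih x hx
      obtain ⟨w', hw', e'⟩ := h w hw
      refine ⟨w', hw', ?_⟩
      rw [e, e', ← pow_two, ← pow_mul, pow_succ, mul_comm]
  obtain ⟨n, hn⟩ := isPGroup_iff_exists_pow_pow_eq_one.1 hX2
  intro x hx
  obtain ⟨w, hw, e⟩ := key n x hx
  rw [← QuotientGroup.eq_one_iff, e, ← QuotientGroup.mk_pow, QuotientGroup.eq_one_iff]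
  have := hn ⟨w, hw⟩
  rw [Subtype.ext_iff] at this
  have h1 : w ^ 2 ^ n = 1 := by simpa using this
  rw [h1]
  exact Y.one_mem

theorem bSIMQ (h : S_QM) : S_SIMQ := by
  intro G _ _ π hπ X Y hX hY hYX hXK hmin
  have hker := ker_normal π
  -- `K` acts trivially
  have hcomm : ⁅X, π.ker⁆ ≤ Y := by
    have h1 : ⁅X, π.ker⁆ ⊔ Y ≤ X := sup_le (Subgroup.commutator_le_left X π.ker) hYX.le
    have hn : (⁅X, π.ker⁆ ⊔ Y).Normal := inferInstance
    rcases hmin _ hn le_sup_right h1 with h2 | h2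
    · rw [← h2]
      exact le_sup_left
    · exact absurd (G04_nil π.ker X Y hπ.ker2 hY hXK h2.ge) (not_le_of_gt hYX)
  have hXX : ∀ x ∈ X, ∀ y ∈ X, (x : G ⧸ Y) * y = y * x := by
    intro x hx y hy
    have h1 := hcomm (Subgroup.commutator_mem_commutator hx (hXK hy))
    rw [← QuotientGroup.eq_one_iff, commutatorElement_def] at h1
    simp only [QuotientGroup.mk_mul, QuotientGroup.mk_inv] at h1
    rwa [mul_inv_eq_one, mul_inv_eq_iff_eq_mul] at h1
  -- squares
  have hsq : ∀ x ∈ X, x * x ∈ Y := by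
    let W : Subgroup G :=
      { carrier := {g | ∃ x ∈ X, (g : G ⧸ Y) = x * x}
        one_mem' := ⟨1, X.one_mem, by simp⟩
        mul_mem' := by
          rintro a b ⟨x, hx, ea⟩ ⟨y, hy, eb⟩
          refine ⟨x * y, X.mul_mem hx hy, ?_⟩
          rw [QuotientGroup.mk_mul, QuotientGroup.mk_mul, ea, eb]
          have := hXX x hx y hy
          rw [mul_assoc (x : G ⧸ Y) y, ← mul_assoc (y : G ⧸ Y) x, ← this]
          simp only [mul_assoc]
        inv_mem' := by
          rintro a ⟨x, hx, ea⟩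
          refine ⟨x⁻¹, X.inv_mem hx, ?_⟩
          rw [QuotientGroup.mk_inv, ea, QuotientGroup.mk_inv, _root_.mul_inv_rev] }
    have hWn : W.Normal := by
      constructor
      rintro a ⟨x, hx, ea⟩ g
      refine ⟨g * x * g⁻¹, hX.conj_mem x hx g, ?_⟩
      simp only [QuotientGroup.mk_mul, QuotientGroup.mk_inv, ea]
      group
    have hYW : Y ≤ W := fun y hy => ⟨1, X.one_mem, by
      rw [QuotientGroup.mk_one, one_mul, QuotientGroup.eq_one_iff]
      exact hy⟩
    have hWX : W ≤ X := by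
      rintro a ⟨x, hx, ea⟩
      rw [← QuotientGroup.mk_mul, eq_comm, QuotientGroup.eq] at ea
      have h1 := X.mul_mem (X.mul_mem hx hx) (hYX.le ea)
      rwa [mul_inv_cancel_left] at h1
    rcases hmin W hWn hYW hWX with h2 | h2
    · intro x hx
      rw [← h2]
      exact ⟨x, hx, by rw [QuotientGroup.mk_mul]⟩
    · exfalso
      refine absurd (G04_sq X Y (hπ.ker2.to_le hXK) hY ?_) (not_le_of_gt hYX)
      intro x hx
      rw [← h2] at hx
      exact hx
  obtain ⟨M, _, _, _, φ, hφ, h15⟩ := h G π hπ X Y hX hY hYX.le hXK hsq hcomm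
  refine ⟨M, inferInstance, inferInstance, inferInstance, φ, hφ, h15, ?_⟩
  obtain ⟨x0, hx0, hx0'⟩ := SetLike.exists_of_lt hYX
  have hnt : Nontrivial M := ⟨φ x0, 0, fun h0 => hx0' ((hφ.ker x0 hx0).1 h0)⟩
  rw [isSimpleModule_iff]
  refine { exists_pair_ne := ⟨⊥, ⊤, bot_ne_top⟩, eq_bot_or_eq_top := ?_ }
  intro N
  let W : Subgroup G :=
    { carrier := {g | g ∈ X ∧ φ g ∈ N}
      one_mem' := ⟨X.one_mem, by rw [hφ.toHomOn.map_one]; exact N.zero_mem⟩
      mul_mem' := by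
        rintro a b ⟨ha, ha'⟩ ⟨hb, hb'⟩
        exact ⟨X.mul_mem ha hb, by rw [hφ.mul a ha b hb]; exact N.add_mem ha' hb'⟩
      inv_mem' := by
        rintro a ⟨ha, ha'⟩
        exact ⟨X.inv_mem ha, by rw [hφ.toHomOn.map_inv ha]; exact ha'⟩ }
  have hWn : W.Normal := by
    constructor
    rintro a ⟨ha, ha'⟩ g
    exact ⟨hX.conj_mem a ha g, by rw [hφ.conj g a ha]; exact act_mem _ ha'⟩
  have hYW : Y ≤ W := fun y hy => ⟨hYX.le hy, by
    rw [(hφ.ker y (hYX.le hy)).2 hy]; exact N.zero_mem⟩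
  rcases hmin W hWn hYW (fun a ha => ha.1) with h2 | h2
  · left
    rw [eq_bot_iff]
    intro m hm
    obtain ⟨x, hx, rfl⟩ := hφ.surj m
    rw [Submodule.mem_bot, hφ.ker x hx, ← h2]
    exact ⟨hx, hm⟩
  · right
    rw [eq_top_iff]
    intro m _
    obtain ⟨x, hx, rfl⟩ := hφ.surj m
    rw [← h2] at hx
    exact hx.2

end Pool.Agent.A8
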