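import Pool.Agent.Helper89.A8.Stmts
import Pool.Agent.Helper89.A8.GTools
import Pool.Agent.Helper10.A8.G04

/-!
# Block G05: commutator pairings
-/

set_option autoImplicit false

namespace Pool.Agent.A8

open Matrix
open scoped commutatorElement

section G05
variable {G : Type} [Group G] {π : G →* Gam}

/-- `(w u)^4` -/
theorem G05_four (w u : G) : (w * u) ^ 4 =
    w * (u * w * u⁻¹) * (u ^ 2 * w * (u ^ 2)⁻¹) * (u ^ 3 * w * (u ^ 3)⁻¹) * u ^ 4 := by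
  simp only [pow_succ, pow_zero, one_mul]
  group

/-- the norm of `w` -/
def G05_N (u w : G) : G :=
  w * (u * w * u⁻¹) * (u ^ 2 * w * (u ^ 2)⁻¹) * (u ^ 3 * w * (u ^ 3)⁻¹)

theorem G05_N_mem {X : Subgroup G} (hX : X.Normal) (u : G) {w : G} (hw : w ∈ X) :
    G05_N u w ∈ X :=
  mul_mem (mul_mem (mul_mem hw (hX.conj_mem w hw _)) (hX.conj_mem w hw _)) (hX.conj_mem w hw _)

/-- consequence of the absence of elements of order 16 -/
theorem G05_nrel (h : Cfg π) {u w : G} (hu : π u ^ 4 = 1) (hw : w ∈ π.ker) :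
    G05_N u w * (u ^ 4 * G05_N u w * (u ^ 4)⁻¹) = 1 := by
  have h1 : (w * u) ^ 8 = 1 := by
    apply G04_eight' h
    rw [map_mul, MonoidHom.mem_ker.1 hw, one_mul, hu]
  have h2 : u ^ 8 = 1 := G04_eight' h hu
  have h3 : (w * u) ^ 8 = (w * u) ^ 4 * (w * u) ^ 4 := by rw [← pow_add]
  rw [h3, G05_four] at h1
  have h4 : u ^ 4 = (u ^ 4)⁻¹ := by
    rw [eq_inv_iff_mul_eq_one, ← pow_add, h2]
  calc G05_N u w * (u ^ 4 * G05_N u w * (u ^ 4)⁻¹)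
      = G05_N u w * (u ^ 4 * G05_N u w * u ^ 4) := by rw [← h4]
    _ = 1 := by
      rw [← h1, G05_N]
      simp only [mul_assoc]

theorem G05_N_hom {X : Subgroup G} (hX : X.Normal) {M : Type*} [AddCommGroup M]
    [Module RG M] {φ : G → M} (hφ : HomOn π X φ) (u : G) {w : G} (hw : w ∈ X) :
    φ (G05_N u w) = nrm4 (π u) (φ w) := by
  rw [G05_N, hφ.mul _ (mul_mem (mul_mem hw (hX.conj_mem w hw _)) (hX.conj_mem w hw _)) _
    (hX.conj_mem w hw _), hφ.mul _ (mul_mem hw (hX.conj_mem w hw _)) _ (hX.conj_mem w hw _),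
    hφ.mul _ hw _ (hX.conj_mem w hw _), hφ.conj _ w hw, hφ.conj _ w hw, hφ.conj _ w hw,
    map_pow, map_pow, nrm4]

/-- modulo `[X,Y]` the norm is multiplicative -/
theorem G05_N_mul {X Y : Subgroup G} (hX : X.Normal) (hY : Y.Normal) (u : G) {x y : G}
    (hx : x ∈ X) (hy : y ∈ Y) :
    ∃ c ∈ ⁅X, Y⁆, G05_N u (x * y) = G05_N u x * G05_N u y * c := by
  refine ⟨(G05_N u x * G05_N u y)⁻¹ * G05_N u (x * y), ?_, by group⟩
  have hcom : ∀ a ∈ X, ∀ b ∈ Y, (b : G ⧸ ⁅X, Y⁆) * a = a * b := by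
    intro a ha b hb
    have h1 := Subgroup.commutator_mem_commutator ha hb
    rw [← QuotientGroup.eq_one_iff, commutatorElement_def] at h1
    simp only [QuotientGroup.mk_mul, QuotientGroup.mk_inv] at h1
    rw [mul_inv_eq_one, mul_inv_eq_iff_eq_mul] at h1
    exact h1.symm
  rw [← QuotientGroup.eq_one_iff, QuotientGroup.mk_mul, QuotientGroup.mk_inv, inv_mul_eq_one,
    QuotientGroup.mk_mul]
  set x1 := u * x * u⁻¹ with hx1
  set x2 := u ^ 2 * x * (u ^ 2)⁻¹ with hx2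
  set x3 := u ^ 3 * x * (u ^ 3)⁻¹ with hx3
  set y1 := u * y * u⁻¹ with hy1
  set y2 := u ^ 2 * y * (u ^ 2)⁻¹ with hy2
  set y3 := u ^ 3 * y * (u ^ 3)⁻¹ with hy3
  have e1 : x1 ∈ X := hX.conj_mem x hx _
  have e2 : x2 ∈ X := hX.conj_mem x hx _
  have e3 : x3 ∈ X := hX.conj_mem x hx _
  have f1 : y1 ∈ Y := hY.conj_mem y hy _
  have f2 : y2 ∈ Y := hY.conj_mem y hy _
  have f3 : y3 ∈ Y := hY.conj_mem y hy _
  have a1 : u * (x * y) * u⁻¹ = x1 * y1 := by rw [hx1, hy1]; group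
  have a2 : u ^ 2 * (x * y) * (u ^ 2)⁻¹ = x2 * y2 := by rw [hx2, hy2]; group
  have a3 : u ^ 3 * (x * y) * (u ^ 3)⁻¹ = x3 * y3 := by rw [hx3, hy3]; group
  simp only [G05_N, ← hx1, ← hx2, ← hx3, ← hy1, ← hy2, ← hy3, a1, a2, a3, QuotientGroup.mk_mul]
  -- move the `x`s to the left
  have m : ∀ a ∈ X, ∀ b ∈ Y, ∀ t : G ⧸ ⁅X, Y⁆, (b : G ⧸ ⁅X, Y⁆) * (a * t) = a * (b * t) := by
    intro a ha b hb t
    rw [← mul_assoc, hcom a ha b hb, mul_assoc]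
  simp only [mul_assoc]
  rw [m x1 e1 y hy, m x2 e2 y1 f1, m x2 e2 y hy, m x3 e3 y2 f2, m x3 e3 y1 f1, m x3 e3 y hy]

end G05

theorem bPAIR (h1 : S_COP) (h2 : S_LIFT) (h3 : S_QM) : S_PAIR := by
  intro G _ _ π hπ X Y hX hY hXK hYK Z _ _ χ hχ hK
  have hker := ker_normal π
  have hC : ∀ {x y : G}, x ∈ X → y ∈ Y → ⁅x, y⁆ ∈ ⁅X, Y⁆ := fun hx hy =>
    Subgroup.commutator_mem_commutator hx hy
  have hCn : (⁅X, Y⁆).Normal := inferInstance
  -- bimultiplicativity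
  have hmulL : ∀ x ∈ X, ∀ x' ∈ X, ∀ y ∈ Y, χ ⁅x * x', y⁆ = χ ⁅x, y⁆ + χ ⁅x', y⁆ := by
    intro x hx x' hx' y hy
    have e : ⁅x * x', y⁆ = (x * ⁅x', y⁆ * x⁻¹) * ⁅x, y⁆ := by
      simp only [commutatorElement_def]
      group
    rw [e, hχ.mul _ (hCn.conj_mem _ (hC hx' hy) x) _ (hC hx hy), hχ.conj_ker (hXK hx) (hC hx' hy),
      add_comm]
  have hmulR : ∀ x ∈ X, ∀ y ∈ Y, ∀ y' ∈ Y, χ ⁅x, y * y'⁆ = χ ⁅x, y⁆ + χ ⁅x, y'⁆ := by
    intro x hx y hy y' hy'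
    have e : ⁅x, y * y'⁆ = ⁅x, y⁆ * (y * ⁅x, y'⁆ * y⁻¹) := by
      simp only [commutatorElement_def]
      group
    rw [e, hχ.mul _ (hC hx hy) _ (hCn.conj_mem _ (hC hx hy') y), hχ.conj_ker (hYK hy) (hC hx hy')]
  have hconj : ∀ g : G, ∀ x ∈ X, ∀ y ∈ Y,
      χ ⁅g * x * g⁻¹, g * y * g⁻¹⁆ = act (π g) (χ ⁅x, y⁆) := by
    intro g x hx y hy
    have e : ⁅g * x * g⁻¹, g * y * g⁻¹⁆ = g * ⁅x, y⁆ * g⁻¹ := by
      simp only [commutatorElement_def]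
      group
    rw [e, hχ.conj g _ (hC hx hy)]
  have hone : ∀ y ∈ Y, χ ⁅(1 : G), y⁆ = 0 := by
    intro y hy
    rw [commutatorElement_one_left, hχ.map_one]
  have hone' : ∀ x ∈ X, χ ⁅x, (1 : G)⁆ = 0 := by
    intro y hy
    rw [commutatorElement_one_right, hχ.map_one]
  have hinvL : ∀ x ∈ X, ∀ y ∈ Y, χ ⁅x⁻¹, y⁆ = χ ⁅x, y⁆ := by
    intro x hx y hy
    have := hmulL x hx x⁻¹ (X.inv_mem hx) y hy
    rw [mul_inv_cancel, hone y hy] at this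
    rw [← neg_eq (χ ⁅x, y⁆)]
    exact eq_neg_of_add_eq_zero_right this.symm
  have hinvR : ∀ x ∈ X, ∀ y ∈ Y, χ ⁅x, y⁻¹⁆ = χ ⁅x, y⁆ := by
    intro x hx y hy
    have := hmulR x hx y hy y⁻¹ (Y.inv_mem hy)
    rw [mul_inv_cancel, hone' x hx] at this
    rw [← neg_eq (χ ⁅x, y⁆)]
    exact eq_neg_of_add_eq_zero_right this.symm
  have hK' : ∀ x ∈ X, ∀ y ∈ Y, ∀ k ∈ π.ker, χ ⁅x, k * y * k⁻¹⁆ = χ ⁅x, y⁆ := by
    intro x hx y hy k hk
    have h1 := hconj k (k⁻¹ * x * k⁻¹⁻¹) (hX.conj_mem x hx k⁻¹) y hy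
    have e : k * (k⁻¹ * x * k⁻¹⁻¹) * k⁻¹ = x := by group
    rw [e, MonoidHom.mem_ker.1 hk, act_one, hK x hx y hy k⁻¹ (inv_mem hk)] at h1
    exact h1
  -- the kernels
  let X0 : Subgroup G :=
    { carrier := {x | x ∈ X ∧ ∀ y ∈ Y, χ ⁅x, y⁆ = 0}
      one_mem' := ⟨X.one_mem, hone⟩
      mul_mem' := by
        rintro a b ⟨ha, ha'⟩ ⟨hb, hb'⟩
        exact ⟨X.mul_mem ha hb, fun y hy => by
          rw [hmulL a ha b hb y hy, ha' y hy, hb' y hy, add_zero]⟩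
      inv_mem' := by
        rintro a ⟨ha, ha'⟩
        exact ⟨X.inv_mem ha, fun y hy => by rw [hinvL a ha y hy, ha' y hy]⟩ }
  let Y0 : Subgroup G :=
    { carrier := {y | y ∈ Y ∧ ∀ x ∈ X, χ ⁅x, y⁆ = 0}
      one_mem' := ⟨Y.one_mem, hone'⟩
      mul_mem' := by
        rintro a b ⟨ha, ha'⟩ ⟨hb, hb'⟩
        exact ⟨Y.mul_mem ha hb, fun x hx => by
          rw [hmulR x hx a ha b hb, ha' x hx, hb' x hx, add_zero]⟩
      inv_mem' := by
        rintro a ⟨ha, ha'⟩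
        exact ⟨Y.inv_mem ha, fun x hx => by rw [hinvR x hx a ha, ha' x hx]⟩ }
  have hX0n : X0.Normal := by
    constructor
    rintro x ⟨hx, hx'⟩ g
    refine ⟨hX.conj_mem x hx g, fun y hy => ?_⟩
    have h1 := hconj g x hx (g⁻¹ * y * g⁻¹⁻¹) (hY.conj_mem y hy g⁻¹)
    have e : g * (g⁻¹ * y * g⁻¹⁻¹) * g⁻¹ = y := by group
    rw [e, hx' _ (hY.conj_mem y hy g⁻¹), act_zero] at h1
    exact h1
  have hY0n : Y0.Normal := by
    constructor
    rintro y ⟨hy, hy'⟩ g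
    refine ⟨hY.conj_mem y hy g, fun x hx => ?_⟩
    have h1 := hconj g (g⁻¹ * x * g⁻¹⁻¹) (hX.conj_mem x hx g⁻¹) y hy
    have e : g * (g⁻¹ * x * g⁻¹⁻¹) * g⁻¹ = x := by group
    rw [e, hy' _ (hX.conj_mem x hx g⁻¹), act_zero] at h1
    exact h1
  have hX0X : X0 ≤ X := fun x hx => hx.1
  have hY0Y : Y0 ≤ Y := fun x hx => hx.1
  obtain ⟨Xb, _, _, _, φ, hφ, hφ15⟩ := h3 G π hπ X X0 hX hX0n hX0X hXK
    (fun x hx => ⟨X.mul_mem hx hx, fun y hy => by rw [hmulL x hx x hx y hy, add_self]⟩)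
    (by
      rw [Subgroup.commutator_le]
      intro x hx k hk
      have e : ⁅x, k⁆ = x * (k * x⁻¹ * k⁻¹) := by rw [commutatorElement_def]; group
      have hm := hX.conj_mem _ (X.inv_mem hx) k
      rw [e]
      refine ⟨X.mul_mem hx hm, fun y hy => ?_⟩
      rw [hmulL x hx _ hm y hy, hK _ (X.inv_mem hx) y hy k hk, hinvL x hx y hy, add_self])
  obtain ⟨Yb, _, _, _, ψ, hψ, hψ15⟩ := h3 G π hπ Y Y0 hY hY0n hY0Y hYK
    (fun y hy => ⟨Y.mul_mem hy hy, fun x hx => by rw [hmulR x hx y hy y hy, add_self]⟩)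
    (by
      rw [Subgroup.commutator_le]
      intro y hy k hk
      have e : ⁅y, k⁆ = y * (k * y⁻¹ * k⁻¹) := by rw [commutatorElement_def]; group
      have hm := hY.conj_mem _ (Y.inv_mem hy) k
      rw [e]
      refine ⟨Y.mul_mem hy hm, fun x hx => ?_⟩
      rw [hmulR x hx y hy _ hm, hK' x hx _ (Y.inv_mem hy) k hk, hinvR x hx y hy, add_self])
  -- well-definedness
  have hwL : ∀ x ∈ X, ∀ x' ∈ X, φ x = φ x' → ∀ y ∈ Y, χ ⁅x, y⁆ = χ ⁅x', y⁆ := by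
    intro x hx x' hx' h y hy
    have h1 : x * x'⁻¹ ∈ X0 := by
      rw [← hφ.ker _ (X.mul_mem hx (X.inv_mem hx')), hφ.toHomOn.map_mul_inv hx hx', h, add_self]
    have h2 := h1.2 y hy
    rw [hmulL x hx _ (X.inv_mem hx') y hy, hinvL x' hx' y hy] at h2
    rw [← neg_eq (χ ⁅x', y⁆)]
    exact eq_neg_of_add_eq_zero_left h2
  have hwR : ∀ x ∈ X, ∀ y ∈ Y, ∀ y' ∈ Y, ψ y = ψ y' → χ ⁅x, y⁆ = χ ⁅x, y'⁆ := by
    intro x hx y hy y' hy' h
    have h1 : y * y'⁻¹ ∈ Y0 := by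
      rw [← hψ.ker _ (Y.mul_mem hy (Y.inv_mem hy')), hψ.toHomOn.map_mul_inv hy hy', h, add_self]
    have h2 := h1.2 x hx
    rw [hmulR x hx y hy _ (Y.inv_mem hy'), hinvR x hx y' hy'] at h2
    rw [← neg_eq (χ ⁅x, y'⁆)]
    exact eq_neg_of_add_eq_zero_left h2
  choose sX hsX hsX' using hφ.surj
  choose sY hsY hsY' using hψ.surj
  let p : Xb →+ Yb →+ Z :=
    AddMonoidHom.mk' (fun m => AddMonoidHom.mk' (fun n => χ ⁅sX m, sY n⁆) (by
      intro n n'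
      rw [← hmulR _ (hsX m) _ (hsY n) _ (hsY n')]
      exact hwR _ (hsX m) _ (hsY _) _ (Y.mul_mem (hsY n) (hsY n'))
        (by rw [hsY', hψ.mul _ (hsY n) _ (hsY n'), hsY', hsY']))) (by
      intro m m'
      ext n
      change χ ⁅sX (m + m'), sY n⁆ = χ ⁅sX m, sY n⁆ + χ ⁅sX m', sY n⁆
      rw [← hmulL _ (hsX m) _ (hsX m') _ (hsY n)]
      exact hwL _ (hsX _) _ (X.mul_mem (hsX m) (hsX m'))
        (by rw [hsX', hφ.mul _ (hsX m) _ (hsX m'), hsX', hsX']) _ (hsY n))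
  have hp : ∀ x ∈ X, ∀ y ∈ Y, p (φ x) (ψ y) = χ ⁅x, y⁆ := by
    intro x hx y hy
    change χ ⁅sX (φ x), sY (ψ y)⁆ = _
    rw [hwL _ (hsX _) x hx (hsX' _) _ (hsY _), hwR x hx _ (hsY _) y hy (hsY' _)]
  refine ⟨Xb, Yb, inferInstance, inferInstance, inferInstance, inferInstance, inferInstance,
    inferInstance, φ, ψ, p, hφ.toHomOn, hφ.surj, hψ.toHomOn, hψ.surj, hp, ?_, ?_, ?_, hφ15, hψ15⟩
  · refine ⟨?_, ?_, ?_⟩
    · intro g m n
      obtain ⟨x, hx, rfl⟩ := hφ.surj m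
      obtain ⟨y, hy, rfl⟩ := hψ.surj n
      obtain ⟨g, rfl⟩ := hπ.surj g
      rw [← hφ.conj g x hx, ← hψ.conj g y hy, hp _ (hX.conj_mem x hx g) _ (hY.conj_mem y hy g),
        hconj g x hx y hy, hp x hx y hy]
    · intro g hg m n hm hn
      obtain ⟨x, hx, rfl⟩ := hφ.surj m
      obtain ⟨y, hy, rfl⟩ := hψ.surj n
      have hodd : Odd (orderOf g) := by
        rcases hg with hg | hg <;> rw [hg] <;> decide
      obtain ⟨z, hz, hzo⟩ := G04_lift h2 hπ g _ hodd rfl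
      have hx' : x⁻¹ * (z * x * z⁻¹) ∈ X0 := by
        rw [← hφ.ker _ (X.mul_mem (X.inv_mem hx) (hX.conj_mem x hx z)),
          hφ.mul _ (X.inv_mem hx) _ (hX.conj_mem x hx z), hφ.toHomOn.map_inv hx, hφ.conj z x hx,
          hz, hm, add_self]
      have hy' : y⁻¹ * (z * y * z⁻¹) ∈ Y0 := by
        rw [← hψ.ker _ (Y.mul_mem (Y.inv_mem hy) (hY.conj_mem y hy z)),
          hψ.mul _ (Y.inv_mem hy) _ (hY.conj_mem y hy z), hψ.toHomOn.map_inv hy, hψ.conj z y hy,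
          hz, hn, add_self]
      obtain ⟨a, ha, ha'⟩ := G04_cop h1 X0 hX0n (hπ.ker2.to_le (hX0X.trans hXK)) (z := z) (x := x)
        (by rw [hzo]; exact hodd) hx'
      obtain ⟨b, hb, hb'⟩ := G04_cop h1 Y0 hY0n (hπ.ker2.to_le (hY0Y.trans hYK)) (z := z) (x := y)
        (by rw [hzo]; exact hodd) hy'
      have hxa : x * a ∈ X := X.mul_mem hx (hX0X ha)
      have hyb : y * b ∈ Y := Y.mul_mem hy (hY0Y hb)
      have hcm := G04_comm57 hπ (hXK hxa) (hYK hyb) ha' hb' (by rw [hzo]; exact hg)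
      have e1 : φ (x * a) = φ x := by
        rw [hφ.mul x hx a (hX0X ha), (hφ.ker a (hX0X ha)).2 ha, add_zero]
      have e2 : ψ (y * b) = ψ y := by
        rw [hψ.mul y hy b (hY0Y hb), (hψ.ker b (hY0Y hb)).2 hb, add_zero]
      rw [← e1, ← e2, hp _ hxa _ hyb, commutatorElement_eq_one_iff_mul_comm.2 hcm, hχ.map_one]
    · intro g hg m n
      obtain ⟨x, hx, rfl⟩ := hφ.surj m
      obtain ⟨y, hy, rfl⟩ := hψ.surj n
      obtain ⟨u, rfl⟩ := hπ.surj g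
      have hu4 : π u ^ 4 = 1 := by
        have := pow_orderOf_eq_one (π u)
        rwa [hg] at this
      have hu4' : u ^ 4 ∈ π.ker := by rw [MonoidHom.mem_ker, map_pow, hu4]
      rw [← G05_N_hom hX hφ.toHomOn u hx, ← G05_N_hom hY hψ.toHomOn u hy,
        hp _ (G05_N_mem hX u hx) _ (G05_N_mem hY u hy)]
      obtain ⟨c, hc, hc'⟩ := G05_N_mul hX hY u hx hy
      have r1 := G05_nrel hπ hu4 (mul_mem (hXK hx) (hYK hy))
      have r2 := G05_nrel hπ hu4 (hXK hx)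
      have r3 := G05_nrel hπ hu4 (hYK hy)
      rw [hc'] at r1
      set a := G05_N u x with ha
      set b := G05_N u y with hb
      set t := u ^ 4 with ht
      have hxa : a ∈ X := G05_N_mem hX u hx
      have hyb : b ∈ Y := G05_N_mem hY u hy
      have e : ⁅a, b⁆ * ((b * a) * c * (b * a)⁻¹) * (t * c * t⁻¹) = 1 := by
        have r2' : t * a * t⁻¹ = a⁻¹ := (inv_eq_of_mul_eq_one_right r2).symm
        have r3' : t * b * t⁻¹ = b⁻¹ := (inv_eq_of_mul_eq_one_right r3).symm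
        have e1 : t * (a * b * c) * t⁻¹ = (t * a * t⁻¹) * (t * b * t⁻¹) * (t * c * t⁻¹) := by group
        rw [e1, r2', r3'] at r1
        rw [← r1, commutatorElement_def]
        group
      have hba : b * a ∈ π.ker := mul_mem (hYK hyb) (hXK hxa)
      have h5 := congrArg χ e
      rw [hχ.map_one, hχ.mul _ (mul_mem (hC hxa hyb) (hCn.conj_mem c hc _)) _
        (hCn.conj_mem c hc _), hχ.mul _ (hC hxa hyb) _ (hCn.conj_mem c hc _),
        hχ.conj_ker hba hc, hχ.conj_ker hu4' hc, add_assoc, add_self, add_zero] at h5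
      exact h5
  · intro m hm
    obtain ⟨x, hx, rfl⟩ := hφ.surj m
    rw [hφ.ker x hx]
    refine ⟨hx, fun y hy => ?_⟩
    rw [← hp x hx y hy]
    exact hm _
  · intro n hn
    obtain ⟨y, hy, rfl⟩ := hψ.surj n
    rw [hψ.ker y hy]
    refine ⟨hy, fun x hx => ?_⟩
    rw [← hp x hx y hy]
    exact hn _

end Pool.Agent.A8
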