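import Pool.Agent.Helper89.A8.Stmts
import Pool.Agent.Helper89.A8.GTools

/-!
# Block G06: types of local subgroups
-/

set_option autoImplicit false

namespace Pool.Agent.A8

open Matrix
open scoped commutatorElement

section G06
variable {X Y Z X' Y' Z' : Type} [AddCommGroup X] [Module RG X] [AddCommGroup Y] [Module RG Y]
  [AddCommGroup Z] [Module RG Z] [AddCommGroup X'] [Module RG X'] [AddCommGroup Y'] [Module RG Y']
  [AddCommGroup Z'] [Module RG Z']

/-- pull back a pairing along linear maps and push forward the values -/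
noncomputable def G06_tr (p : X →+ Y →+ Z) (f : X' →ₗ[RG] X) (g : Y' →ₗ[RG] Y) (h : Z →ₗ[RG] Z') :
    X' →+ Y' →+ Z' :=
  AddMonoidHom.mk' (fun x => AddMonoidHom.mk' (fun y => h (p (f x) (g y))) (by
    intro y y'
    rw [map_add, map_add, map_add])) (by
    intro x x'
    ext y
    change h (p (f (x + x')) (g y)) = h (p (f x) (g y)) + h (p (f x') (g y))
    rw [map_add, map_add, AddMonoidHom.add_apply, map_add])

@[simp] theorem G06_tr_apply (p : X →+ Y →+ Z) (f : X' →ₗ[RG] X) (g : Y' →ₗ[RG] Y)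
    (h : Z →ₗ[RG] Z') (x : X') (y : Y') : G06_tr p f g h x y = h (p (f x) (g y)) := rfl

theorem G06_nrm4 (f : X' →ₗ[RG] X) (g : Gam) (x : X') : f (nrm4 g x) = nrm4 g (f x) := by
  simp only [nrm4, map_add, map_act]

theorem G06_adm {p : X →+ Y →+ Z} (hp : Adm p) (f : X' →ₗ[RG] X) (g : Y' →ₗ[RG] Y)
    (h : Z →ₗ[RG] Z') : Adm (G06_tr p f g h) := by
  refine ⟨?_, ?_, ?_⟩
  · intro γ x y
    simp only [G06_tr_apply, map_act, hp.equiv]
  · intro γ hγ x y hx hy
    simp only [G06_tr_apply]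
    rw [hp.fix γ hγ (f x) (g y) (by rw [← map_act, hx]) (by rw [← map_act, hy]), map_zero]
  · intro γ hγ x y
    simp only [G06_tr_apply, G06_nrm4]
    rw [hp.four γ hγ, map_zero]

end G06

theorem bTYPES (h1 : S_SIMQ) (h2 : S_PAIR) (h3 : S_UNIV) (h4 : S_UC) (h5 : S_SIM) : S_TYPES := by
  intro G _ _ π hπ D D1 hD hDK hD1 hlt hmax
  have hker := ker_normal π
  by_cases hZ : ⁅D, π.ker⁆ ≤ ⊥
  · right
    intro x hx
    rw [mem_ZK]
    refine ⟨fun y hy => ?_, hDK hx⟩
    have h6 := hZ (Subgroup.commutator_mem_commutator hx hy)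
    rw [Subgroup.mem_bot, commutatorElement_eq_one_iff_mul_comm] at h6
    exact h6.symm
  left
  have hfin : Finite (Subgroup G) := Finite.of_injective (fun N => (N : Set G)) SetLike.coe_injective
  -- `T` maximal with `[D,K] ⊄ T`
  obtain ⟨T, ⟨hTn, hTK, hTD⟩, hTmax⟩ := Set.Finite.exists_maximal
    (s := {T : Subgroup G | T.Normal ∧ T ≤ π.ker ∧ ¬ ⁅D, π.ker⁆ ≤ T}) (Set.toFinite _)
    ⟨⊥, inferInstance, bot_le, hZ⟩
  set M := T ⊔ ⁅D, π.ker⁆ with hM
  have hMn : M.Normal := inferInstance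
  have hDKK : ⁅D, π.ker⁆ ≤ π.ker := Subgroup.commutator_le_right D π.ker
  have hMK : M ≤ π.ker := sup_le hTK hDKK
  have hTM : T < M := by
    refine lt_of_le_of_ne le_sup_left fun he => hTD ?_
    rw [he]
    exact le_sup_right
  obtain ⟨S, _, _, _, σ, hσ, hS15, hSs⟩ := h1 G π hπ M T hMn hTn hTM hMK (by
    intro W hW hTW hWM
    by_cases hWD : ⁅D, π.ker⁆ ≤ W
    · right
      exact le_antisymm hWM (sup_le hTW hWD)
    · left
      exact le_antisymm (hTmax ⟨hW, hWM.trans hMK, hWD⟩ hTW) hTW)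
  -- `B` minimal with `[D,B] ⊄ T`
  obtain ⟨B, ⟨hBn, hBK, hBD⟩, hBmin⟩ := Set.Finite.exists_minimal
    (s := {B : Subgroup G | B.Normal ∧ B ≤ π.ker ∧ ¬ ⁅D, B⁆ ≤ T}) (Set.toFinite _)
    ⟨π.ker, inferInstance, le_rfl, hTD⟩
  have hDBM : ⁅D, B⁆ ≤ M := (Subgroup.commutator_mono le_rfl hBK).trans le_sup_right
  have hχ : HomOn π ⁅D, B⁆ σ := hσ.toHomOn.mono hDBM
  obtain ⟨Xb, Yb, _, _, _, _, _, _, φ, ψ, p, hφ, hφs, hψ, hψs, hp, hadm, hpL, hpR, hX15, hY15⟩ :=
    h2 G π hπ D B hD hBn hDK hBK S σ hχ (by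
      intro x hx y hy k hk
      have hm : ⁅k, x⁆ ∈ M := by
        apply (le_sup_right : ⁅D, π.ker⁆ ≤ M)
        rw [Subgroup.commutator_comm]
        exact Subgroup.commutator_mem_commutator hk hx
      set m := ⁅k, x⁆ with hm'
      have hxy : ⁅x, y⁆ ∈ M := hDBM (Subgroup.commutator_mem_commutator hx hy)
      have e : ⁅k * x * k⁻¹, y⁆ = (m * ⁅x, y⁆ * m⁻¹) * (m * (y * m⁻¹ * y⁻¹)) := by
        have e' : k * x * k⁻¹ = m * x := by
          rw [hm', commutatorElement_def]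
          group
        rw [e']
        simp only [commutatorElement_def]
        group
      have h6 := hMn.conj_mem _ (M.inv_mem hm) y
      rw [e, hσ.mul _ (hMn.conj_mem _ hxy m) _ (M.mul_mem hm h6),
        hσ.mul _ hm _ h6, hσ.toHomOn.conj_ker (hMK hm) hxy,
        hσ.toHomOn.conj_ker (hBK hy) (M.inv_mem hm), hσ.toHomOn.map_inv hm, add_self, add_zero])
  -- a nonzero value
  obtain ⟨x0, hx0, y0, hy0, hxy0⟩ : ∃ x ∈ D, ∃ y ∈ B, p (φ x) (ψ y) ≠ 0 := by
    by_contra hcon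
    push Not at hcon
    apply hBD
    rw [Subgroup.commutator_le]
    intro x hx y hy
    rw [← hσ.ker _ (hDBM (Subgroup.commutator_mem_commutator hx hy)), ← hp x hx y hy]
    exact hcon x hx y hy
  have hXnt : Nontrivial Xb := ⟨φ x0, 0, fun h0 => hxy0 (by rw [h0, map_zero]; rfl)⟩
  have hYnt : Nontrivial Yb := ⟨ψ y0, 0, fun h0 => hxy0 (by rw [h0, map_zero])⟩
  -- `Yb` is simple
  have hYs : IsSimpleModule RG Yb := by
    rw [isSimpleModule_iff]
    refine { exists_pair_ne := ⟨⊥, ⊤, bot_ne_top⟩, eq_bot_or_eq_top := ?_ }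
    intro N
    let W : Subgroup G :=
      { carrier := {g | g ∈ B ∧ ψ g ∈ N}
        one_mem' := ⟨B.one_mem, by rw [hψ.map_one]; exact N.zero_mem⟩
        mul_mem' := by
          rintro a b ⟨ha, ha'⟩ ⟨hb, hb'⟩
          exact ⟨B.mul_mem ha hb, by rw [hψ.mul a ha b hb]; exact N.add_mem ha' hb'⟩
        inv_mem' := by
          rintro a ⟨ha, ha'⟩
          exact ⟨B.inv_mem ha, by rw [hψ.map_inv ha]; exact ha'⟩ }
    have hWn : W.Normal := by
      constructor
      rintro a ⟨ha, ha'⟩ g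
      exact ⟨hBn.conj_mem a ha g, by rw [hψ.conj g a ha]; exact act_mem _ ha'⟩
    have hWB : W ≤ B := fun a ha => ha.1
    by_cases hWD : ⁅D, W⁆ ≤ T
    · left
      rw [eq_bot_iff]
      intro m hm
      obtain ⟨y, hy, rfl⟩ := hψs m
      rw [Submodule.mem_bot]
      apply hpR
      intro n
      obtain ⟨x, hx, rfl⟩ := hφs n
      rw [hp x hx y hy, hσ.ker _ (hDBM (Subgroup.commutator_mem_commutator hx hy))]
      exact hWD (Subgroup.commutator_mem_commutator hx (show y ∈ W from ⟨hy, hm⟩))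
    · right
      have h6 : B ≤ W := hBmin ⟨hWn, hWB.trans hBK, hWD⟩ hWB
      rw [eq_top_iff]
      intro m _
      obtain ⟨y, hy, rfl⟩ := hψs m
      exact (h6 hy).2
  -- a simple submodule of `Xb`
  have hfin' : Finite (Submodule RG Xb) :=
    Finite.of_injective (fun N => (N : Set Xb)) SetLike.coe_injective
  obtain ⟨A, hA⟩ := IsAtomic.exists_atom (Submodule RG Xb)
  have hAs : IsSimpleModule RG A := isSimpleModule_iff_isAtom.2 hA
  obtain ⟨a0, b, c, m, α, β, γ, hm, hm'⟩ := h3 A Yb S hAs hYs hSs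
    (fun g hg x hx => Subtype.ext (hX15 g hg (x : Xb) (by rw [← act_coe, hx]))) hY15 hS15
    (G06_tr p A.subtype LinearMap.id LinearMap.id) (G06_adm hadm _ _ _) (by
      obtain ⟨x, hx, hx0⟩ := (Submodule.ne_bot_iff A).1 hA.1
      by_contra hcon
      push Not at hcon
      exact hx0 (hpL x (fun y => hcon ⟨x, hx⟩ y)))
  obtain ⟨a, m', α', hm1, hm2⟩ := h4 b c Xb
    (G06_tr p LinearMap.id β.symm.toLinearMap γ.toLinearMap) (G06_adm hadm _ _ _) (by
      intro x hx
      apply hpL x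
      intro y
      have h6 := hx (β y)
      simp only [G06_tr_apply, LinearMap.id_apply, LinearEquiv.coe_coe,
        LinearEquiv.symm_apply_apply] at h6
      exact (LinearEquiv.map_eq_zero_iff γ).1 h6)
  have hφ' : HomOn π D (fun x => α' (φ x)) := hφ.comp α'.toLinearMap
  refine ⟨a, fun x => α' (φ x), ?_⟩
  have hsurj : ∀ n : Md a, ∃ x ∈ D, α' (φ x) = n := by
    intro n
    obtain ⟨x, hx, hx'⟩ := hφs (α'.symm n)
    exact ⟨x, hx, by rw [hx', LinearEquiv.apply_symm_apply]⟩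
  have hsim : IsSimpleModule RG (Md a) := h5 a
  -- `φ'` vanishes on `D1`
  have hker0 : hφ'.kerG ≤ D1 := by
    apply hmax _ (hφ'.kerG_normal hD) hφ'.kerG_le
    intro he
    have : Nontrivial (Md a) := IsSimpleModule.nontrivial RG (Md a)
    obtain ⟨n, hn⟩ := exists_ne (0 : Md a)
    obtain ⟨x, hx, hx'⟩ := hsurj n
    rw [← he] at hx
    exact hn (by rw [← hx']; exact hx.2)
  have hD1 : ∀ x ∈ D1, α' (φ x) = 0 := by
    -- the image of `D1` is a submodule
    let N : Submodule RG (Md a) := mkSub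
      { carrier := {n | ∃ x ∈ D1, α' (φ x) = n}
        zero_mem' := ⟨1, D1.one_mem, by
          have := hφ'.map_one
          exact this⟩
        add_mem' := by
          rintro _ _ ⟨x, hx, rfl⟩ ⟨y, hy, rfl⟩
          exact ⟨x * y, D1.mul_mem hx hy, hφ'.mul x (hlt.le hx) y (hlt.le hy)⟩
        neg_mem' := by
          rintro _ ⟨x, hx, rfl⟩
          exact ⟨x, hx, (neg_eq _).symm⟩ }
      (by
        rintro g _ ⟨x, hx, rfl⟩
        obtain ⟨g, rfl⟩ := hπ.surj g
        exact ⟨g * x * g⁻¹, hD1.conj_mem x hx g, hφ'.conj g x (hlt.le hx)⟩)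
    have := (isSimpleModule_iff RG (Md a)).1 hsim
    rcases eq_bot_or_eq_top N with hN | hN
    · intro x hx
      have h6 : α' (φ x) ∈ N := ⟨x, hx, rfl⟩
      rw [hN, Submodule.mem_bot] at h6
      exact h6
    · exfalso
      apply not_le_of_gt hlt
      intro x hx
      have h6 : α' (φ x) ∈ N := by
        rw [hN]
        trivial
      obtain ⟨y, hy, hy'⟩ := h6
      have h7 : x * y⁻¹ ∈ hφ'.kerG := by
        refine ⟨D.mul_mem hx (D.inv_mem (hlt.le hy)), ?_⟩
        have h9 := hφ'.map_mul_inv hx (hlt.le hy)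
        simp only [hy', add_self] at h9
        exact h9
      have h8 := D1.mul_mem (hker0 h7) hy
      rwa [inv_mul_cancel_right] at h8
  exact
    { mul := hφ'.mul
      conj := hφ'.conj
      normal := hD
      le := hDK
      surj := hsurj
      top := by
        rintro W hW hWD ⟨x, hx, hx'⟩
        by_contra hne
        exact hx' (hD1 x (hmax W hW hWD hne hx)) }

end Pool.Agent.A8
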